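import Mathlib
import Pool.Agent.Y780.Cz.Low3

set_option autoImplicit false

/-!
# Total stopping times and the distance of the parity word from words of linear complexity

For every `A` there is `B` such that the total stopping time of `n` is at most `B ^ (D + 1) log n`, where
`D` is the Hamming distance of the parity word of `n` from any word with at most `A m` factors of each
length `m ≥ log n`. The same holds if the parity word is a concatenation of `D` such words. So the
logarithmic bound holds for all `n` whose parity word is at bounded distance from some word of linear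
complexity, and a total stopping time which is larger than `K log n` forces `D ≥ log K / log B - 1`.
-/

namespace Pool.Agent.Results.MP_a1568a_nt.DistanceToLinearComplexity

/-- The `3x+1` function on the natural numbers. -/
def T (n : ℕ) : ℕ := if n % 2 = 0 then n / 2 else (3 * n + 1) / 2

/-- `σ` is the total stopping time of `n`. -/
def IsTotalStoppingTime (n σ : ℕ) : Prop := T^[σ] n = 1 ∧ ∀ k < σ, T^[k] n ≠ 1

/-- The parity word of length `N` of `n`: its `i`-th letter is `true` if the `i`-th iterate is odd. -/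
def parityWord (n N : ℕ) : List Bool := (List.range N).map fun i => decide (T^[i] n % 2 = 1)

/-- The complexity function of a word: the number of its different factors (blocks of consecutive
letters) of length `m`. -/
def complexity (u : List Bool) (m : ℕ) : ℕ :=
  ((Finset.range (u.length + 1 - m)).image fun i => (u.drop i).take m).card

/-- The number of places in which two words differ. -/
def hammingDistance (u v : List Bool) : ℕ := ((u.zip v).filter fun a => a.1 != a.2).length

/-- The word `u` has at most `A m` factors of length `m`, for every `m ≥ s`. -/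
def LinearComplexity (A s : ℝ) (u : List Bool) : Prop :=
  ∀ m : ℕ, s ≤ m → (complexity u m : ℝ) ≤ A * m

open Pool.Agent.Y780.Cz in
lemma T_cast (n i : ℕ) : ((T^[i] n : ℕ) : ℤ) = (Pool.Agent.Y780.Cz.T 3 1)^[i] (n : ℤ) := by
  induction i with
  | zero => rfl
  | succ i ih =>
    rw [Function.iterate_succ_apply', Function.iterate_succ_apply', ← ih]
    set y := T^[i] n with hy
    unfold T Pool.Agent.Y780.Cz.T
    rcases Nat.mod_two_eq_zero_or_one y with h | h
    · rw [if_pos h, if_pos (by omega)]; omega
    · rw [if_neg (by omega), if_neg (by omega)]; omega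

lemma par_eq (n N : ℕ) : parityWord n N = Pool.Agent.Y780.Cz.par ((3 : ℕ) : ℤ) 1 (n : ℤ) N := by
  unfold parityWord Pool.Agent.Y780.Cz.par
  apply List.map_congr_left
  intro i _
  rw [decide_eq_decide]
  have := T_cast n i
  change _ ↔ (Pool.Agent.Y780.Cz.T 3 1)^[i] (n : ℤ) % 2 = 1
  rw [← this]
  omega

/-- a repetition before the total stopping time is impossible -/
lemma distinct {n σ : ℕ} (h : IsTotalStoppingTime n σ) :
    Set.InjOn (fun i : ℕ => T^[i] n) (Set.Iio σ) := by
  have key : ∀ i j : ℕ, i < j → j < σ → T^[i] n ≠ T^[j] n := by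
    intro i j hij hj he
    apply h.2 (i + (σ - j)) (by omega)
    have h1 : T^[σ] n = T^[σ - j] (T^[j] n) := by
      rw [← Function.iterate_add_apply]; congr 2; omega
    rw [add_comm, Function.iterate_add_apply, he, ← h1]
    exact h.1
  intro i hi j hj he
  rw [Set.mem_Iio] at hi hj
  rcases lt_trichotomy i j with h1 | h1 | h1
  · exact absurd he (key i j h1 hj)
  · exact h1
  · exact absurd he.symm (key j i h1 hi)

/-- For every real `A` there is `B ≥ 1` with the following properties.
(1) Let `n ≥ 2` have the finite total stopping time `σ`, and let `v` be any word of length `σ` with at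
most `A m` factors of each length `m ≥ log n`. If the parity word of length `σ` of `n` differs from `v`
in `D` places, then `σ ≤ B ^ (D + 1) log n`.
(2) Let `n ≥ 2` have the finite total stopping time `σ`. If the parity word of length `σ` of `n` is a
concatenation of `D` words with at most `A m` factors of each length `m ≥ log n`, then
`σ ≤ B ^ (D + 1) log n`.
(3) More generally let `n ≥ 2` and let `N` be such that `n, T n, ..., T^(N-1) n` are pairwise
distinct, and let `s ≥ log n`. If the parity word of length `N` of `n` is a concatenation of `D` words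
with at most `A m` factors of each length `m ≥ s`, or differs in `D` places from a word with at
most `A m` factors of each length `m ≥ s`, then `N ≤ B ^ (D + 1) s`. -/
theorem result (A : ℝ) : ∃ B : ℝ, 1 ≤ B ∧
    (∀ n σ : ℕ, 2 ≤ n → IsTotalStoppingTime n σ → ∀ v : List Bool, v.length = σ →
      LinearComplexity A (Real.log n) v →
      (σ : ℝ) ≤ B ^ (hammingDistance (parityWord n σ) v + 1) * Real.log n) ∧
    (∀ n σ : ℕ, 2 ≤ n → IsTotalStoppingTime n σ → ∀ W : List (List Bool),
      W.flatten = parityWord n σ → (∀ u ∈ W, LinearComplexity A (Real.log n) u) →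
      (σ : ℝ) ≤ B ^ (W.length + 1) * Real.log n) ∧
    (∀ n N : ℕ, 2 ≤ n → Set.InjOn (fun i : ℕ => T^[i] n) (Set.Iio N) → ∀ s : ℝ, Real.log n ≤ s →
      (∀ W : List (List Bool), W.flatten = parityWord n N →
        (∀ u ∈ W, LinearComplexity A s u) → (N : ℝ) ≤ B ^ (W.length + 1) * s) ∧
      (∀ v : List Bool, v.length = N → LinearComplexity A s v →
        (N : ℝ) ≤ B ^ (hammingDistance (parityWord n N) v + 1) * s)) := by
  obtain ⟨B1, hB1, h1⟩ := Pool.Agent.Y780.Cz.lin_traj (q := 3) (by norm_num) le_rfl A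
  obtain ⟨B2, hB2, h2⟩ := Pool.Agent.Y780.Cz.lin_ham_traj (q := 3) (by norm_num) le_rfl A
  set B0 : ℝ := max B1 B2 with hB0
  have hb1 : B1 ≤ B0 := le_max_left _ _
  have hb2 : B2 ≤ B0 := le_max_right _ _
  have hB01 : 1 ≤ B0 := hB1.trans hb1
  -- the scale
  have hscale : ∀ (n : ℕ) (s : ℝ), 2 ≤ n → Real.log n ≤ s → 1 ≤ ⌈s⌉₊ ∧
      (⌈s⌉₊ : ℝ) + Real.log (|(((n : ℕ) : ℤ) : ℝ)| + |((1 : ℤ) : ℝ)|) ≤ 5 * s := by
    intro n s hn hs
    have hnR : (2 : ℝ) ≤ n := by exact_mod_cast hn
    have hl2 := Real.log_two_gt_d9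
    have hlog : Real.log 2 ≤ Real.log n := Real.log_le_log (by norm_num) hnR
    have hs0 : 0 < s := by linarith
    refine ⟨Nat.one_le_iff_ne_zero.2 (Nat.ceil_pos.2 hs0).ne', ?_⟩
    have h3 := Nat.ceil_lt_add_one hs0.le
    have e : |(((n : ℕ) : ℤ) : ℝ)| + |((1 : ℤ) : ℝ)| = n + 1 := by
      push_cast
      rw [abs_of_nonneg (by linarith), abs_one]
    rw [e]
    have h4 : Real.log ((n : ℝ) + 1) ≤ Real.log (n * n) := by
      apply Real.log_le_log (by linarith)
      nlinarith
    rw [Real.log_mul (by linarith) (by linarith)] at h4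
    linarith
  have hinj : ∀ n N : ℕ, Set.InjOn (fun i : ℕ => T^[i] n) (Set.Iio N) → ∀ i < N, ∀ j < N,
      (Pool.Agent.Y780.Cz.T ((3 : ℕ) : ℤ) 1)^[i] (n : ℤ) =
        (Pool.Agent.Y780.Cz.T ((3 : ℕ) : ℤ) 1)^[j] (n : ℤ) → i = j := by
    intro n N h i hi j hj he
    apply h hi hj
    change T^[i] n = T^[j] n
    have e1 := T_cast n i
    have e2 := T_cast n j
    change (Pool.Agent.Y780.Cz.T 3 1)^[i] (n : ℤ) = (Pool.Agent.Y780.Cz.T 3 1)^[j] (n : ℤ) at he
    rw [← e1, ← e2] at he
    exact_mod_cast he
  have keyW : ∀ n N : ℕ, 2 ≤ n → Set.InjOn (fun i : ℕ => T^[i] n) (Set.Iio N) → ∀ s : ℝ,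
      Real.log n ≤ s → ∀ W : List (List Bool), W.flatten = parityWord n N →
        (∀ u ∈ W, LinearComplexity A s u) → (N : ℝ) ≤ (5 * B0) ^ (W.length + 1) * s := by
    intro n N hn hd s hs W hW hlow
    obtain ⟨hM, hsc⟩ := hscale n s hn hs
    have h3 := h1 1 (by norm_num) (n : ℤ) ⌈s⌉₊ N W hM (by rw [hW, par_eq]) (fun u hu m hm =>
      hlow u hu m ((Nat.le_ceil s).trans (by exact_mod_cast hm))) (hinj n N hd)
    have hs0 : 0 ≤ s := by
      have hnR : (2 : ℝ) ≤ n := by exact_mod_cast hn
      have := Real.log_nonneg (by linarith : (1 : ℝ) ≤ n)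
      linarith
    calc (N : ℝ) ≤ B1 ^ (W.length + 1) * (⌈s⌉₊ + Real.log (|(((n : ℕ) : ℤ) : ℝ)| + |((1 : ℤ) : ℝ)|)) := h3
      _ ≤ B0 ^ (W.length + 1) * (5 * s) := by
          apply mul_le_mul (pow_le_pow_left₀ (by linarith) hb1 _) hsc _ (by positivity)
          have : 0 ≤ Real.log (|(((n : ℕ) : ℤ) : ℝ)| + |((1 : ℤ) : ℝ)|) := by
            apply Real.log_nonneg
            have : |((1 : ℤ) : ℝ)| = 1 := by norm_num
            rw [this]
            have := abs_nonneg (((n : ℕ) : ℤ) : ℝ)
            linarith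
          positivity
      _ = (5 * B0 ^ (W.length + 1)) * s := by ring
      _ ≤ (5 ^ (W.length + 1) * B0 ^ (W.length + 1)) * s := by
          apply mul_le_mul_of_nonneg_right _ hs0
          apply mul_le_mul_of_nonneg_right _ (by positivity)
          calc (5 : ℝ) = 5 ^ 1 := (pow_one _).symm
            _ ≤ 5 ^ (W.length + 1) := pow_le_pow_right₀ (by norm_num) (by omega)
      _ = (5 * B0) ^ (W.length + 1) * s := by rw [mul_pow]
  have keyV : ∀ n N : ℕ, 2 ≤ n → Set.InjOn (fun i : ℕ => T^[i] n) (Set.Iio N) → ∀ s : ℝ,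
      Real.log n ≤ s → ∀ v : List Bool, v.length = N → LinearComplexity A s v →
        (N : ℝ) ≤ (5 * B0) ^ (hammingDistance (parityWord n N) v + 1) * s := by
    intro n N hn hd s hs v hv hlow
    obtain ⟨hM, hsc⟩ := hscale n s hn hs
    have h3 := h2 1 (by norm_num) (n : ℤ) ⌈s⌉₊ N v hM (hinj n N hd) hv (fun m hm =>
      hlow m ((Nat.le_ceil s).trans (by exact_mod_cast hm)))
    rw [← par_eq] at h3
    change (N : ℝ) ≤ B2 ^ (hammingDistance (parityWord n N) v + 1) * _ at h3
    set D := hammingDistance (parityWord n N) v with hD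
    have hs0 : 0 ≤ s := by
      have hnR : (2 : ℝ) ≤ n := by exact_mod_cast hn
      have := Real.log_nonneg (by linarith : (1 : ℝ) ≤ n)
      linarith
    calc (N : ℝ) ≤ B2 ^ (D + 1) * (⌈s⌉₊ + Real.log (|(((n : ℕ) : ℤ) : ℝ)| + |((1 : ℤ) : ℝ)|)) := h3
      _ ≤ B0 ^ (D + 1) * (5 * s) := by
          apply mul_le_mul (pow_le_pow_left₀ (by linarith) hb2 _) hsc _ (by positivity)
          have : 0 ≤ Real.log (|(((n : ℕ) : ℤ) : ℝ)| + |((1 : ℤ) : ℝ)|) := by
            apply Real.log_nonneg
            have : |((1 : ℤ) : ℝ)| = 1 := by norm_num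
            rw [this]
            have := abs_nonneg (((n : ℕ) : ℤ) : ℝ)
            linarith
          positivity
      _ = (5 * B0 ^ (D + 1)) * s := by ring
      _ ≤ (5 ^ (D + 1) * B0 ^ (D + 1)) * s := by
          apply mul_le_mul_of_nonneg_right _ hs0
          apply mul_le_mul_of_nonneg_right _ (by positivity)
          calc (5 : ℝ) = 5 ^ 1 := (pow_one _).symm
            _ ≤ 5 ^ (D + 1) := pow_le_pow_right₀ (by norm_num) (by omega)
      _ = (5 * B0) ^ (D + 1) * s := by rw [mul_pow]
  refine ⟨5 * B0, by linarith, fun n σ hn hσ v hv hlow => ?_, fun n σ hn hσ W hW hlow => ?_,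
    fun n N hn hd s hs => ⟨keyW n N hn hd s hs, keyV n N hn hd s hs⟩⟩
  · exact keyV n σ hn (distinct hσ) _ le_rfl v hv hlow
  · exact keyW n σ hn (distinct hσ) _ le_rfl W hW hlow

end Pool.Agent.Results.MP_a1568a_nt.DistanceToLinearComplexity
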