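import Pool.Agent.Y966.LD.Main2

/-!
The integers with a given total stopping time: exact large deviations and concentration of the ratio
of the total stopping time and `log n`.
-/

set_option autoImplicit false

namespace Pool.Agent.Results.MP_a1568a_nt.LevelSets

/-- The `3x+1` function. -/
def T (n : ℕ) : ℕ := if n % 2 = 0 then n / 2 else (3 * n + 1) / 2

/-- `k` is the total stopping time of `n`: the least `k ≥ 0` with `T^(k)(n) = 1` (so it is finite). -/
def IsStoppingTime (n k : ℕ) : Prop := IsLeast {j : ℕ | T^[j] n = 1} k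

/-- `g(a) = sup_θ (θ a - log (½ (2^θ + (2/3)^θ)))`. -/
noncomputable def g (a : ℝ) : ℝ :=
  ⨆ θ : ℝ, (θ * a - Real.log ((1 / 2) * ((2 : ℝ) ^ θ + (2 / 3 : ℝ) ^ θ)))

/-- Every level set `{n : σ_∞(n) = k}` is finite, and: (a) for every `η > 0` all but a proportion
`exp (-c k)` of its members satisfy `|σ_∞(n) / log n - 4 / log (16/3)| ≤ η` (the constant
`4 / log (16/3)` is about `2.3895`), so that `σ_∞(n) ≤ 2.39 log n` for all but an exponentially
small proportion of the `n` with `σ_∞(n) = k`; (b) for `4 / log (16/3) ≤ α ≤ 3 / log (8/3)` (up to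
`3.0586`) the number of `n` with `σ_∞(n) = k` and `σ_∞(n) ≥ α log n` is
`exp ((1/α - g(1/α) + o(1)) k)`; (c) for `1 / log 2 < α ≤ 4 / log (16/3)` the number of `n` with
`σ_∞(n) = k` and `σ_∞(n) ≤ α log n` is `exp ((1/α - g(1/α) + o(1)) k)`. -/
theorem result :
    (∀ k : ℕ, {n : ℕ | IsStoppingTime n k}.Finite) ∧
    (∀ η : ℝ, 0 < η → ∃ c : ℝ, 0 < c ∧ ∃ k₀ : ℕ, ∀ k : ℕ, k₀ ≤ k →
      ({n : ℕ | IsStoppingTime n k ∧
        η < |(k : ℝ) / Real.log n - 4 / Real.log (16 / 3)|}.ncard : ℝ) ≤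
        Real.exp (-(c * k)) * ({n : ℕ | IsStoppingTime n k}.ncard : ℝ)) ∧
    (∀ α : ℝ, 4 / Real.log (16 / 3) ≤ α → α ≤ 3 / Real.log (8 / 3) → ∀ ε : ℝ, 0 < ε →
      ∃ k₀ : ℕ, ∀ k : ℕ, k₀ ≤ k →
        Real.exp ((1 / α - g (1 / α) - ε) * k) ≤
          ({n : ℕ | IsStoppingTime n k ∧ α * Real.log n ≤ k}.ncard : ℝ) ∧
        ({n : ℕ | IsStoppingTime n k ∧ α * Real.log n ≤ k}.ncard : ℝ) ≤
          Real.exp ((1 / α - g (1 / α) + ε) * k)) ∧
    (∀ α : ℝ, 1 / Real.log 2 < α → α ≤ 4 / Real.log (16 / 3) → ∀ ε : ℝ, 0 < ε →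
      ∃ k₀ : ℕ, ∀ k : ℕ, k₀ ≤ k →
        Real.exp ((1 / α - g (1 / α) - ε) * k) ≤
          ({n : ℕ | IsStoppingTime n k ∧ (k : ℝ) ≤ α * Real.log n}.ncard : ℝ) ∧
        ({n : ℕ | IsStoppingTime n k ∧ (k : ℝ) ≤ α * Real.log n}.ncard : ℝ) ≤
          Real.exp ((1 / α - g (1 / α) + ε) * k)) := by
  have h16 : 0 < Real.log (16 / 3) := Real.log_pos (by norm_num)
  have h83 : 0 < Real.log (8 / 3) := Real.log_pos (by norm_num)
  have hl2 : 0 < Real.log 2 := Real.log_pos (by norm_num)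
  refine ⟨fun k => Pool.Agent.Y966.LD.Lev_finite k,
    fun η hη => Pool.Agent.Y966.LD.concentration hη, ?_, ?_⟩
  · intro α h1 h2 ε hε
    have hα : 0 < α := lt_of_lt_of_le (by positivity) h1
    have h3 : Real.log (8 / 3) / 3 ≤ 1 / α := by
      rw [div_le_div_iff₀ (by norm_num) hα]
      rw [le_div_iff₀ h83] at h2
      linarith
    have h4 : 1 / α ≤ Real.log (16 / 3) / 4 := by
      rw [div_le_div_iff₀ hα (by norm_num)]
      rw [div_le_iff₀ h16] at h1
      linarith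
    obtain ⟨k₀, hk₀⟩ := Pool.Agent.Y966.LD.main_levels.1 (1 / α) h3 h4 ε hε
    refine ⟨k₀, fun k hk => ?_⟩
    have hset : {n : ℕ | IsStoppingTime n k ∧ α * Real.log n ≤ k} =
        Pool.Agent.Y966.LD.Small k (1 / α) := by
      ext n
      refine and_congr_right fun _ => ?_
      rw [one_div, inv_mul_eq_div, le_div_iff₀ hα, mul_comm]
    rw [hset]
    exact hk₀ k hk
  · intro α h1 h2 ε hε
    have hα : 0 < α := lt_trans (by positivity) h1
    have h3 : Real.log (16 / 3) / 4 ≤ 1 / α := by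
      rw [div_le_div_iff₀ (by norm_num) hα]
      rw [le_div_iff₀ h16] at h2
      linarith
    have h4 : 1 / α < Real.log 2 := by
      rw [div_lt_iff₀ hα]
      rw [div_lt_iff₀ hl2] at h1
      linarith
    obtain ⟨k₀, hk₀⟩ := Pool.Agent.Y966.LD.main_levels.2 (1 / α) h3 h4 ε hε
    refine ⟨k₀, fun k hk => ?_⟩
    have hset : {n : ℕ | IsStoppingTime n k ∧ (k : ℝ) ≤ α * Real.log n} =
        Pool.Agent.Y966.LD.Large k (1 / α) := by
      ext n
      refine and_congr_right fun _ => ?_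
      rw [one_div, inv_mul_eq_div, div_le_iff₀ hα, mul_comm]
    rw [hset]
    exact hk₀ k hk

end Pool.Agent.Results.MP_a1568a_nt.LevelSets
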