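import Pool.Agent.Y965.PL.LocPS

set_option autoImplicit false

/-!
# Total stopping times along the sequences `⌊n ^ c⌋`

Let `1 < c < 101/100`. The sequence `⌊n ^ c⌋` has only `X ^ (1 / c)` terms up to `X`. The total stopping
times of its terms are distributed as those of all integers, with a power saving error term which is
uniform over all functions of the total stopping time; in particular the local law, the limit law (also
with residue classes of the total stopping time and of the number of odd terms) and the law of large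
numbers hold along this sequence.

Method: a dispersion argument. With `2 ^ t ≈ N ^ 0.65` the total stopping time of `m ∈ (N ^ 0.99, N]` is a
function of `T^t(m)` and the number of odd terms before it; the fibres of this pair of functions have
about `N ^ 0.13` elements, and the correlations of the phases `k m ^ (1 / c)` over the pairs `m, m + h` of
elements of one fibre, which depend on `m` modulo `2 ^ t` only, are small by the inequality of Kusmin and
Landau.
-/

namespace Pool.Agent.Results.MP_a1568a_nt.PiatetskiShapiroTimes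

open Filter Topology

/-- the `3x+1` function -/
def T (n : ℕ) : ℕ := if n % 2 = 0 then n / 2 else (3 * n + 1) / 2

/-- the total stopping time, the least `k` with `T^k(n) = 1`, and `⊤ = ∞` if there is none -/
noncomputable def sigma (n : ℕ) : ℕ∞ := sInf {k : ℕ∞ | ∃ j : ℕ, T^[j] n = 1 ∧ k = j}

/-- the number of odd terms among `n, T n, ..., T^(k-1) n` -/
def odds (k n : ℕ) : ℕ := ((Finset.range k).filter fun i => T^[i] n % 2 = 1).card

/-- the total stopping time truncated at `t`, that is `min (σ(n), t)` -/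
noncomputable def truncated (t : ℝ) (n : ℕ) : ℝ := if sigma n = ⊤ then t else min ((sigma n).toNat : ℝ) t

/-- the terms `⌊n ^ c⌋` of the sequence -/
noncomputable def ps (c : ℝ) (n : ℕ) : ℕ := ⌊(n : ℝ) ^ c⌋₊

/-- the positive integers with the property `P` have the natural density `d` -/
def HasDensity (P : ℕ → Prop) (d : ℝ) : Prop :=
  Tendsto (fun N : ℕ => ({n : ℕ | 1 ≤ n ∧ n ≤ N ∧ P n}.ncard : ℝ) / N) atTop (𝓝 d)

/-- `2 / log (4/3) * log n + x * log 3 * √(2 log n / (log (4/3))^3)` -/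
noncomputable def bound (x : ℝ) (n : ℕ) : ℝ :=
  2 / Real.log (4 / 3) * Real.log n
    + x * (Real.log 3 * Real.sqrt (2 * Real.log n / Real.log (4 / 3) ^ 3))

/-- The distribution function of the standard normal law. -/
noncomputable def Phi (x : ℝ) : ℝ :=
  ProbabilityTheory.cdf (ProbabilityTheory.gaussianReal 0 1) x

/-- The total stopping time of `n` is finite, at most `bound x n`, congruent to `a` modulo `m`, and the
number of odd terms of the trajectory before `1` is reached is congruent to `b` modulo `m`. -/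
def Level (m : ℕ) (a b : ℤ) (x : ℝ) (n : ℕ) : Prop :=
  ∃ t : ℕ, sigma n = t ∧ (t : ℝ) ≤ bound x n ∧ (t : ℤ) ≡ a [ZMOD m] ∧ (odds t n : ℤ) ≡ b [ZMOD m]

/-- the number of the `n ≤ X` for which `⌊n ^ c⌋` has total stopping time `k` -/
noncomputable def count (c : ℝ) (k X : ℕ) : ℝ := ({n : ℕ | 1 ≤ n ∧ n ≤ X ∧ sigma (ps c n) = k}.ncard : ℝ)

open Pool.Agent.H499R2.HL Pool.Agent.Y965.PL

theorem T_eq : T = Pool.Agent.H499R2.ND.Tn := by funext a; rfl

theorem sigma_eq {n k : ℕ} (h : H k n) : sigma n = k := by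
  unfold sigma
  rw [T_eq]
  apply le_antisymm
  · exact sInf_le ⟨k, h.1, rfl⟩
  · refine le_sInf ?_
    rintro j ⟨i, hi, rfl⟩
    have : k ≤ i := by
      by_contra hlt
      exact h.2 i (by omega) hi
    exact_mod_cast this

theorem sigma_top {n : ℕ} (h : ¬ ∃ k, H k n) : sigma n = ⊤ := by
  unfold sigma
  rw [T_eq]
  have : {k : ℕ∞ | ∃ j : ℕ, Pool.Agent.H499R2.ND.Tn^[j] n = 1 ∧ k = j} = ∅ := by
    rw [Set.eq_empty_iff_forall_notMem]
    rintro k ⟨j, hj, _⟩
    exact h (H_iff_ex.2 ⟨j, hj⟩)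
  rw [this, sInf_empty]

theorem sigma_ne_top {n : ℕ} : sigma n ≠ ⊤ ↔ ∃ k, H k n := by
  constructor
  · intro h
    by_contra hcon
    exact h (sigma_top hcon)
  · rintro ⟨k, hk⟩
    rw [sigma_eq hk]
    exact ENat.natCast_ne_top k

theorem sigma_iff {n k : ℕ} : sigma n = k ↔ H k n := by
  constructor
  · intro h
    obtain ⟨k', hk'⟩ := sigma_ne_top.1 (show sigma n ≠ ⊤ by rw [h]; exact ENat.natCast_ne_top k)
    have h1 := sigma_eq hk'
    rw [h] at h1
    have h2 : k = k' := by exact_mod_cast h1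
    rw [h2]; exact hk'
  · exact sigma_eq

theorem level_iff (m : ℕ) (a b : ℤ) (x : ℝ) (n : ℕ) : Level m a b x n ↔
    (True ∧ Lv valK (clsK m a b) (th (2 / Real.log (4 / 3)) bK x) n) := by
  rw [true_and]
  unfold Level Lv valK clsK bK
  refine exists_congr fun k => ?_
  rw [th_eq, sigma_iff]
  exact Iff.rfl

theorem count_ind (P : ℕ → Prop) (X : ℕ) (s : ℕ → ℕ) :
    ({n : ℕ | 1 ≤ n ∧ n ≤ X ∧ P (s n)}.ncard : ℝ) = ∑ n ∈ Finset.Icc 1 X, ind P (s n) := by
  classical
  unfold ind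
  rw [Finset.sum_boole]
  have e : {n : ℕ | 1 ≤ n ∧ n ≤ X ∧ P (s n)} = ((Finset.Icc 1 X).filter fun n => P (s n) : Finset ℕ) := by
    ext n
    simp only [Set.mem_ofPred_eq, Finset.coe_filter, Finset.mem_Icc, and_assoc]
  rw [e, Set.ncard_coe_finset]

theorem along_of {c : ℝ} {P Q : ℕ → Prop} {d : ℝ} (h : MnS (Pool.Agent.Y965.PL.ps c) (ind Q) d)
    (hPQ : ∀ n, P n ↔ Q n) : HasDensity (fun n => P (ps c n)) d := by
  unfold HasDensity
  unfold MnS at h
  refine h.congr fun X => ?_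
  rw [count_ind P X (ps c)]
  congr 1
  apply Finset.sum_congr rfl
  intro n _
  exact ind_congr (hPQ _).symm

/-- TOTAL STOPPING TIMES ALONG `⌊n ^ c⌋`. The positive integers with finite total stopping time have a
positive natural density `δ`, and `δ = 1` if and only if all are of this kind. Let `1 < c < 101/100`.

(1) (Uniform transfer.) For every function `φ`, bounded by `1`, the sum of `φ(σ(⌊n ^ c⌋))` over `n ≤ X` is
the sum of `((m + 1) ^ (1 / c) - m ^ (1 / c)) φ(σ(m))` over all `m ≤ X ^ c`, up to `K X ^ (1 - 1 / 4000)`,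
with `K` independent of `φ` and `X`.

(2) (Local law.) For all `k` at most `C X / √(log X)` of the `n ≤ X` have `σ(⌊n ^ c⌋) = k`, and if
`|k - 2 c log X / log (4/3)| ≤ B √(log X)` and `X ≥ X₀(B)`, then there are at least
`C(B) X / √(log X)` such `n`, `C(B) > 0`.

(3) (Law.) The `n` for which `σ(⌊n ^ c⌋)` is finite have natural density `δ`; those for which moreover
`σ(⌊n ^ c⌋) ≡ a` and the number of odd terms before `1` is `≡ b` modulo `m`, and `σ(⌊n ^ c⌋) ≤ bound x`,
have natural density `δ Phi(x) / m ^ 2`.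

(4) (Averages.) For `Λ > 2 c / log (4/3)` the mean value of `min (σ(⌊n ^ c⌋), Λ log X)` over `n ≤ X`,
divided by `log X`, tends to `δ * 2 c / log (4/3) + (1 - δ) Λ`. -/
theorem result : ∃ δ : ℝ, 0 < δ ∧ δ ≤ 1 ∧ (δ = 1 ↔ ∀ n : ℕ, 1 ≤ n → sigma n ≠ ⊤) ∧
    HasDensity (fun n => sigma n ≠ ⊤) δ ∧
    ∀ c : ℝ, 1 < c → c < 101 / 100 →
    (∃ K : ℝ, ∀ φ : ℕ∞ → ℝ, (∀ t, |φ t| ≤ 1) → ∀ X : ℕ, 1 ≤ X →
      |∑ n ∈ Finset.Icc 1 X, φ (sigma (ps c n)) -
        ∑ m ∈ Finset.Icc 1 (ps c X), (((m : ℝ) + 1) ^ (1 / c) - (m : ℝ) ^ (1 / c)) * φ (sigma m)| ≤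
          K * (X : ℝ) ^ (1 - 1 / 4000 : ℝ)) ∧
    (∃ C : ℝ, ∀ X : ℕ, 2 ≤ X → ∀ k : ℕ, count c k X ≤ C * X / Real.sqrt (Real.log X)) ∧
    (∀ B : ℝ, 0 < B → ∃ C : ℝ, 0 < C ∧ ∃ X₀ : ℕ, ∀ X : ℕ, X₀ ≤ X → ∀ k : ℕ,
      |(k : ℝ) - 2 * c / Real.log (4 / 3) * Real.log X| ≤ B * Real.sqrt (Real.log X) →
      C * X / Real.sqrt (Real.log X) ≤ count c k X) ∧
    HasDensity (fun n => sigma (ps c n) ≠ ⊤) δ ∧
    (∀ (m : ℕ) (a b : ℤ) (x : ℝ), 1 ≤ m → HasDensity (fun n => Level m a b x (ps c n)) (δ * Phi x / m ^ 2)) ∧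
    ∀ Λ : ℝ, 2 * c / Real.log (4 / 3) < Λ →
      Tendsto (fun X : ℕ => (∑ n ∈ Finset.Icc 1 X, truncated (Λ * Real.log X) (ps c n)) / (X * Real.log X))
        atTop (𝓝 (δ * (2 * c / Real.log (4 / 3)) + (1 - δ) * Λ)) := by
  classical
  obtain ⟨δ, hδ, h2, h3⟩ := nat1
  have hν := nu_pos'
  refine ⟨δ, hδ.pos, hδ.le, ?_, ?_, fun c hc hc' => ?_⟩
  · rw [h2]
    refine forall₂_congr fun n _ => ?_
    rw [sigma_ne_top, H_iff_ex]
  · have h4 : Pool.Agent.H499R2.ND.Dn (fun n => sigma n ≠ ⊤) δ :=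
      Pool.Agent.H499R2.LT.Dn_iff (fun n _ => by rw [sigma_ne_top, H_iff_ex]) h3
    exact h4
  obtain ⟨K, hK, hT⟩ := transfer hc hc'
  obtain ⟨hLaw, hJ⟩ := psK hc hc' hK hT hδ
  obtain ⟨⟨C, hC, hU⟩, hLo⟩ := loc_ps hc hc' hK hT
  have hcnt : ∀ k X, count c k X = ∑ n ∈ Finset.Icc 1 X, ind (fun n => H k n) (Pool.Agent.Y965.PL.ps c n) := by
    intro k X
    unfold count
    rw [count_ind (fun n => sigma n = k) X (ps c)]
    apply Finset.sum_congr rfl
    intro n _
    exact ind_congr sigma_iff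
  refine ⟨⟨K, fun φ hφ X hX => ?_⟩, ⟨C, fun X hX k => ?_⟩, ?_, ?_, ?_, ?_⟩
  · have h1 := TS_congr (G := fun z => φ (sigma z.toNat))
      (hT _ (async_Fg (g := fun k _ => φ k) (g0 := φ ⊤) (fun _ _ => hφ _) (hφ _)))
      (fun x => hφ _) (fun m => by
        simp only [Int.toNat_natCast]
        by_cases h : ∃ k, H k m
        · obtain ⟨k, hk⟩ := h
          rw [Fg_H hk, sigma_eq hk]
        · rw [Fg_not h, sigma_top h])
    have h2 := h1.2 X hX
    have e1 : ∑ n ∈ Finset.Icc 1 X, (fun z : ℤ => φ (sigma z.toNat)) ⌊(n : ℝ) ^ c⌋ =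
        ∑ n ∈ Finset.Icc 1 X, φ (sigma (ps c n)) := by
      apply Finset.sum_congr rfl
      intro n _
      have e : (⌊(n : ℝ) ^ c⌋ : ℤ) = ((⌊(n : ℝ) ^ c⌋₊ : ℕ) : ℤ) :=
        (Int.natCast_floor_eq_floor (by positivity)).symm
      dsimp only
      rw [e, Int.toNat_natCast]; rfl
    rw [e1] at h2
    have e2 : ∑ m ∈ Finset.Icc 1 ⌊(X : ℝ) ^ c⌋₊, (fun z : ℤ => φ (sigma z.toNat)) (m : ℤ) *
        Pool.Agent.Y965.PS.ell (1 / c) m =
        ∑ m ∈ Finset.Icc 1 (ps c X), (((m : ℝ) + 1) ^ (1 / c) - (m : ℝ) ^ (1 / c)) * φ (sigma m) := by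
      apply Finset.sum_congr rfl
      intro m _
      simp only [Int.toNat_natCast]
      rw [mul_comm]; rfl
    rw [e2] at h2
    exact h2
  · rw [hcnt]; exact hU X hX k
  · intro B hB
    obtain ⟨C', hC', X₀, h⟩ := hLo B hB
    refine ⟨C', hC', X₀, fun X hX k hk => ?_⟩
    rw [hcnt]
    apply h X hX k
    have e : 2 / Real.log (4 / 3) * (c * Real.log X) = 2 * c / Real.log (4 / 3) * Real.log X := by ring
    rw [e]; exact hk
  · exact along_of (P := fun n => sigma n ≠ ⊤) hLaw.fin (fun n => by rw [sigma_ne_top, true_and])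
  · intro m a b x hm
    have h1 := hJ m a b hm x
    have e : Pool.Agent.H499R2.ND.Phi x = Phi x := Pool.Agent.H499R2.ND.phi_cdf x
    rw [e] at h1
    exact along_of (P := Level m a b x) h1 (level_iff m a b x)
  · intro Λ hΛ
    have hf : IsTr valK truncated := by
      constructor
      · intro t n k hk
        unfold truncated
        rw [sigma_eq hk, if_neg (ENat.natCast_ne_top k), ENat.toNat_natCast]
        rfl
      · intro t n hn
        unfold truncated
        rw [sigma_top hn, if_pos rfl]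
    have e0 : 2 / Real.log (4 / 3) * c = 2 * c / Real.log (4 / 3) := by ring
    have h1 := ps_avg hc (fun _ _ => Nat.cast_nonneg _) (by positivity) bK_pos hLaw hf (Λ := Λ) (by rw [e0]; exact hΛ)
    rw [e0] at h1
    simp only [if_true] at h1
    exact h1

end Pool.Agent.Results.MP_a1568a_nt.PiatetskiShapiroTimes
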