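import Mathlib
import Pool.Agent.Y967.CM.D
import Pool.Agent.Y967.CM.E
import Pool.Agent.Y967.CM.SP
import Pool.Agent.Y967.CM.SQ

set_option autoImplicit false

/-!
# Total stopping times along sparse sequences

For almost all `n` the total stopping times of all the integers whose trajectory passes near one of
`x n, 3 x n, 9 x n, ...` are equal, up to the time of passing, to the total stopping time of `x n`; here
`x` is any sequence which is spread modulo powers of two, like the primes, the values of polynomials or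
the powers `3 ^ n`, `3 ^ p`. For the Mersenne numbers: `σ (2 ^ (n + j) - 1) = σ (2 ^ n - 1) + j`.
-/

namespace Pool.Agent.Results.MP_a1568a_nt.StoppingTimesOfMersenneNumbers

open Filter Topology

/-- The `3x+1` function. -/
def T (n : ℕ) : ℕ := if n % 2 = 0 then n / 2 else (3 * n + 1) / 2

/-- The total stopping time: the least `k` with `T^k n = 1`, and `⊤ = ∞` if there is none. -/
noncomputable def σ (n : ℕ) : ℕ∞ := sInf {k : ℕ∞ | ∃ j : ℕ, T^[j] n = 1 ∧ k = j}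

/-- The sequence `x` is spread modulo powers of two: there is `δ > 0` such that for every `ε > 0` there
are `η > 0` and `N₀` such that, for `N ≥ N₀` and `2 ^ t ≤ N ^ δ`, at most `η 2 ^ t` classes modulo `2 ^ t`
contain together at most `ε N` of the integers `x n`, `1 ≤ n ≤ N`. -/
def Spread (x : ℕ → ℤ) : Prop :=
  ∃ δ : ℝ, 0 < δ ∧ ∀ ε : ℝ, 0 < ε → ∃ η : ℝ, 0 < η ∧ ∃ N₀ : ℕ, ∀ N : ℕ, N₀ ≤ N →
    ∀ t : ℕ, (2 : ℝ) ^ t ≤ (N : ℝ) ^ δ → ∀ A : Finset ℤ, (A.card : ℝ) ≤ η * 2 ^ t →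
      (({n | 1 ≤ n ∧ n ≤ N ∧ ∃ a ∈ A, x n ≡ a [ZMOD 2 ^ t]} : Set ℕ).ncard : ℝ) ≤ ε * N

/-- `P n` holds for almost all `n`, in the sense of natural density. -/
def AlmostAll (P : ℕ → Prop) : Prop :=
  Tendsto (fun N : ℕ => (({n | 1 ≤ n ∧ n ≤ N ∧ ¬ P n} : Set ℕ).ncard : ℝ) / N) atTop (𝓝 0)

/-- The range: `W n = √ log n / (log log n) ^ 17`. -/
noncomputable def W (n : ℕ) : ℝ := √ (Real.log n) / (Real.log (Real.log n)) ^ 17

open Pool.Agent.Y967.CM

theorem ncard_eq (P : ℕ → Prop) [DecidablePred P] (N : ℕ) :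
    ({n | 1 ≤ n ∧ n ≤ N ∧ P n} : Set ℕ).ncard = ((Finset.Icc 1 N).filter P).card := by
  rw [← Set.ncard_coe_finset]
  congr 1
  ext n
  simp only [Set.mem_ofPred_eq, Finset.coe_filter, Finset.mem_Icc, and_assoc]

theorem spread_iff (x : ℕ → ℤ) : Spread x ↔ Pool.Agent.Y967.CM.Spread x := by
  classical
  have key : ∀ (N t : ℕ) (A : Finset ℤ),
      (({n | 1 ≤ n ∧ n ≤ N ∧ ∃ a ∈ A, x n ≡ a [ZMOD 2 ^ t]} : Set ℕ).ncard : ℝ) =
      (((Finset.Icc 1 N).filter (fun n => ∃ a ∈ A, x n ≡ a [ZMOD 2 ^ t])).card : ℝ) := by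
    intro N t A
    rw [ncard_eq]
  unfold Spread Pool.Agent.Y967.CM.Spread
  simp only [key]

theorem almost_of {P : ℕ → Prop} (h : ∀ ε : ℝ, 0 < ε → ∀ᶠ N : ℕ in atTop,
    (({n | 1 ≤ n ∧ n ≤ N ∧ ¬ P n} : Set ℕ).ncard : ℝ) ≤ ε * N) : AlmostAll P := by
  unfold AlmostAll
  rw [Metric.tendsto_nhds]
  intro ε hε
  filter_upwards [h (ε / 2) (by positivity), eventually_gt_atTop 0] with N h1 h2
  have hN : (0 : ℝ) < N := by exact_mod_cast h2
  rw [Real.dist_eq, sub_zero, abs_of_nonneg (by positivity), div_lt_iff₀ hN]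
  nlinarith

theorem AlmostAll.mono {P Q : ℕ → Prop} (h : AlmostAll P) (hPQ : ∀ n, P n → Q n) : AlmostAll Q := by
  classical
  unfold AlmostAll at *
  refine squeeze_zero (fun N => by positivity) (fun N => ?_) h
  apply div_le_div_of_nonneg_right _ (Nat.cast_nonneg N)
  rw [ncard_eq, ncard_eq]
  have : ((Finset.Icc 1 N).filter (fun n => ¬ Q n)) ⊆ ((Finset.Icc 1 N).filter (fun n => ¬ P n)) := by
    intro n hn
    rw [Finset.mem_filter] at hn ⊢
    exact ⟨hn.1, fun h => hn.2 (hPQ n h)⟩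
  exact_mod_cast Finset.card_le_card this

theorem AlmostAll.and_large {P : ℕ → Prop} (h : AlmostAll P) (N₁ : ℕ) :
    AlmostAll (fun n => P n ∧ N₁ ≤ n) := by
  classical
  unfold AlmostAll at *
  have h2 : Tendsto (fun N : ℕ => (N₁ : ℝ) / N) atTop (𝓝 0) := tendsto_const_div_atTop_nhds_zero_nat _
  have h3 := h.add h2
  rw [add_zero] at h3
  refine squeeze_zero (fun N => by positivity) (fun N => ?_) h3
  rw [← add_div]
  apply div_le_div_of_nonneg_right _ (Nat.cast_nonneg N)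
  rw [ncard_eq, ncard_eq]
  have h4 : ((Finset.Icc 1 N).filter (fun n => ¬ (P n ∧ N₁ ≤ n))) ⊆
      ((Finset.Icc 1 N).filter (fun n => ¬ P n)) ∪ Finset.range N₁ := by
    intro n hn
    rw [Finset.mem_filter] at hn
    rw [Finset.mem_union, Finset.mem_filter, Finset.mem_range]
    by_contra hcon
    rw [not_or, not_lt] at hcon
    apply hn.2
    refine ⟨?_, hcon.2⟩
    by_contra h5
    exact hcon.1 ⟨hn.1, h5⟩
  have h5 := (Finset.card_le_card h4).trans (Finset.card_union_le _ _)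
  rw [Finset.card_range] at h5
  exact_mod_cast h5

theorem sq_one {b : ℤ} (h : b ^ 2 = 1) : b = 1 ∨ b = -1 := by
  have h2 : (b - 1) * (b + 1) = 0 := by linear_combination h
  rcases mul_eq_zero.1 h2 with h3 | h3
  · left; omega
  · right; omega

theorem ll_ev : ∃ N₁ : ℕ, ∀ n ≥ N₁, 1 ≤ Real.log (Real.log n) := by
  have hll : Tendsto (fun N : ℕ => Real.log (Real.log N)) atTop atTop :=
    Real.tendsto_log_atTop.comp log_nat_tendsto
  exact eventually_atTop.1 (hll.eventually_ge_atTop 1)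

theorem dat_all {x : ℕ → ℕ} (hx : Spread (fun n => (x n : ℤ))) {κ : ℝ} (hκ : 0 < κ) :
    AlmostAll (fun n => Dat κ x n ∧ 0 ≤ kap n) := by
  classical
  obtain ⟨δ, hδ, h⟩ := ((spread_iff _).1 hx).spr
  have h1 : AlmostAll (Dat κ x) := by
    apply almost_of
    intro ε hε
    filter_upwards [dat_small hδ h hκ hε] with N hN
    rw [ncard_eq]
    refine le_trans (le_of_eq ?_) hN
    congr!
  obtain ⟨N₁, hN₁⟩ := ll_ev
  exact (h1.and_large N₁).mono (fun n hn => ⟨hn.1, kap_nonneg (hN₁ n hn.2)⟩)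

open Pool.Agent.H499R2.ND (Tn)

/-- The trajectory of a Mersenne number at the beginning. -/
theorem iter_mersenne (m : ℕ) : ∀ j l : ℕ, Tn^[j] (3 ^ l * 2 ^ (m + j) - 1) = 3 ^ (l + j) * 2 ^ m - 1 := by
  intro j
  induction j with
  | zero => intro l; rfl
  | succ j ih =>
    intro l
    rw [Function.iterate_succ_apply]
    have e : Tn (3 ^ l * 2 ^ (m + (j + 1)) - 1) = 3 ^ (l + 1) * 2 ^ (m + j) - 1 := by
      have h1 : 1 ≤ 3 ^ l * 2 ^ (m + j) := Nat.one_le_iff_ne_zero.2 (by positivity)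
      have h2 : 3 ^ l * 2 ^ (m + (j + 1)) = 2 * (3 ^ l * 2 ^ (m + j)) := by ring
      have h3 : 3 ^ (l + 1) * 2 ^ (m + j) = 3 * (3 ^ l * 2 ^ (m + j)) := by ring
      rw [h2, h3]
      set A := 3 ^ l * 2 ^ (m + j) with hA
      unfold Tn
      rw [if_neg (by omega)]
      omega
    rw [e, ih (l + 1)]
    congr 3
    omega

theorem mersenne_pass (m : ℕ) : Tn^[m] (2 ^ m - 1) = 3 ^ m - 1 := by
  have h := iter_mersenne 0 m 0
  simpa using h

theorem mersenne_near {n j e : ℕ} :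
    |(((Tn^[e + j] (2 ^ (e + j) - 1) : ℕ) : ℤ) - 3 ^ j * ((3 ^ e : ℕ) : ℤ) : ℝ)| ≤ 1 := by
  rw [mersenne_pass]
  have h1 : 1 ≤ 3 ^ (e + j) := Nat.one_le_pow _ _ (by norm_num)
  have e1 : (((3 ^ (e + j) - 1 : ℕ) : ℤ) : ℝ) - 3 ^ j * (((3 ^ e : ℕ) : ℤ) : ℝ) = -1 := by
    have : ((3 ^ (e + j) - 1 : ℕ) : ℤ) = 3 ^ (e + j) - 1 := by push_cast [Nat.cast_sub h1]; ring
    rw [this]
    push_cast
    rw [pow_add]; ring
  rw [e1, abs_neg, abs_one]

open Pool.Agent.H499R2.HL (H)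

theorem T_eq : T = Tn := rfl

theorem sig_of_H {x k : ℕ} (h : H k x) : σ x = k := by
  unfold σ
  apply le_antisymm
  · exact sInf_le ⟨k, h.1, rfl⟩
  · refine le_sInf ?_
    rintro m ⟨j, hj, rfl⟩
    have : k ≤ j := by
      by_contra hlt
      exact h.2 j (by omega) hj
    exact_mod_cast this

theorem exists_H {x j : ℕ} (h : T^[j] x = 1) : ∃ k, H k x := by
  classical
  have hex : ∃ k, T^[k] x = 1 := ⟨j, h⟩
  exact ⟨Nat.find hex, Nat.find_spec hex, fun i hi h1 => Nat.find_min hex hi h1⟩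

theorem sig_top {x : ℕ} (h : ¬ ∃ k, H k x) : σ x = ⊤ := by
  unfold σ
  have : {k : ℕ∞ | ∃ j : ℕ, T^[j] x = 1 ∧ k = j} = ∅ := by
    rw [Set.eq_empty_iff_forall_notMem]
    rintro k ⟨j, hj1, _⟩
    exact h (exists_H hj1)
  rw [this, sInf_empty]

theorem sig_pass {κ : ℝ} {x : ℕ → ℕ} {n : ℕ} (hD : Dat κ x n) (hk : 0 ≤ kap n) {z k i : ℕ}
    (hi : (i : ℝ) ≤ kap n)
    (hz : |(((Tn^[k] z : ℕ) : ℤ) - 3 ^ i * (x n : ℤ) : ℝ)| ≤ Real.exp (kap n)) :
    σ z = k + σ (x n) := by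
  obtain ⟨t, -, -, -, -, -, -, h1, h2⟩ := dat_pass hD hk hi hz
  by_cases hX : ∃ j, H j (Tn^[t] (x n))
  · obtain ⟨j, hj⟩ := hX
    rw [sig_of_H ((h1 _).2 ⟨j, rfl, hj⟩), sig_of_H ((h2 _).2 ⟨j, rfl, hj⟩)]
    push_cast
    ring
  · have g1 : ¬ ∃ m, H m z := by
      rintro ⟨m, hm⟩
      obtain ⟨j, -, hj⟩ := (h1 m).1 hm
      exact hX ⟨j, hj⟩
    have g2 : ¬ ∃ m, H m (x n) := by
      rintro ⟨m, hm⟩
      obtain ⟨j, -, hj⟩ := (h2 m).1 hm
      exact hX ⟨j, hj⟩
    rw [sig_top g1, sig_top g2, add_top]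

theorem spr_exp3 {e : ℕ → ℕ} (he : Spread (fun n => (e n : ℤ))) :
    Spread (fun n => ((3 ^ e n : ℕ) : ℤ)) := by
  obtain ⟨δ, hδ, h⟩ := ((spread_iff _).1 he).spr
  have h1 := spr_exp h (a := 1) (b := 3) (by norm_num) (by norm_num) (by norm_num)
  have e1 : (fun n => ((3 ^ e n : ℕ) : ℤ)) = fun n => 1 * 3 ^ e n := by
    funext n; push_cast; ring
  rw [e1]
  exact (spread_iff _).2 (h1.spread hδ)

/-- (1) The sequences `n` and the primes (`Nat.nth Nat.Prime n`) are spread; if `x` is spread then so is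
`f (x n)` for every nonconstant polynomial `f` with integer coefficients, and if the sequence of natural
numbers `e` is spread then so is `a b ^ (e n)` for all `a ≠ 0` and odd `b ≠ 1, -1`.
(2) Let the sequence of natural numbers `x` be spread. For almost all `n`, if the trajectory of a natural
number `z` is at time `k` within distance `exp (W n)` of one of the numbers `3 ^ i x n`, `i ≤ W n`, then
`σ z = k + σ (x n)` (both may be infinite).
(3) Let the sequence of natural numbers `e` be spread. For almost all `n`, with `m = e n`, for all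
`j ≤ W n`: `σ (3 ^ (m + j)) = σ (3 ^ m)` and `σ (2 ^ (m + j) - 1) = m + j + σ (3 ^ m)`; in particular
`σ (2 ^ (m + j) - 1) = σ (2 ^ m - 1) + j`. -/
theorem result :
    (Spread (fun n => (n : ℤ)) ∧ Spread (fun n => ((Nat.nth Nat.Prime n : ℕ) : ℤ)) ∧
      (∀ x : ℕ → ℤ, Spread x → ∀ f : Polynomial ℤ, 1 ≤ f.natDegree → Spread (fun n => f.eval (x n))) ∧
      (∀ e : ℕ → ℕ, Spread (fun n => (e n : ℤ)) → ∀ a b : ℤ, a ≠ 0 → b % 2 = 1 → b ≠ 1 → b ≠ -1 →
        Spread (fun n => a * b ^ e n))) ∧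
    (∀ x : ℕ → ℕ, Spread (fun n => (x n : ℤ)) → AlmostAll (fun n => ∀ z k i : ℕ, (i : ℝ) ≤ W n →
        |((T^[k] z : ℕ) : ℝ) - 3 ^ i * x n| ≤ Real.exp (W n) → σ z = k + σ (x n))) ∧
    (∀ e : ℕ → ℕ, Spread (fun n => (e n : ℤ)) → AlmostAll (fun n => ∀ m j : ℕ, m = e n → (j : ℝ) ≤ W n →
        σ (3 ^ (m + j)) = σ (3 ^ m) ∧ σ (2 ^ (m + j) - 1) = m + j + σ (3 ^ m) ∧
        σ (2 ^ (m + j) - 1) = σ (2 ^ m - 1) + j)) := by
  classical
  have hid : Spread (fun n => (n : ℤ)) := (spread_iff _).2 (spr_id.spread one_pos)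
  have hpr : Spread (fun n => ((Nat.nth Nat.Prime n : ℕ) : ℤ)) :=
    (spread_iff _).2 (spr_prime.spread (by norm_num))
  refine ⟨⟨hid, hpr, ?_, ?_⟩, fun x hx => ?_, fun e he => ?_⟩
  · intro x hx f hf
    exact (spread_iff _).2 (((spread_iff x).1 hx).poly hf)
  · intro e he a b ha hb h1 h2
    have h3 : b ^ 2 ≠ 1 := by
      intro h
      rcases sq_one h with h | h
      · exact h1 h
      · exact h2 h
    obtain ⟨δ, hδ, h⟩ := ((spread_iff _).1 he).spr
    exact (spread_iff _).2 ((spr_exp h ha hb h3).spread hδ)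
  · refine (dat_all hx one_pos).mono (fun n hn z k i hi hz => ?_)
    refine sig_pass hn.1 hn.2 (i := i) hi ?_
    have e1 : (((T^[k] z : ℕ) : ℤ) : ℝ) = ((T^[k] z : ℕ) : ℝ) := by push_cast; rfl
    have e2 : ((x n : ℤ) : ℝ) = ((x n : ℕ) : ℝ) := by push_cast; rfl
    rw [T_eq] at e1 hz
    rw [e1, e2]
    exact hz
  · refine (dat_all (spr_exp3 he) one_pos).mono (fun n hn m j hm hj => ?_)
    have hE : (1 : ℝ) ≤ Real.exp (kap n) := Real.one_le_exp hn.2
    have hM : ∀ l : ℕ, (l : ℝ) ≤ kap n → σ (2 ^ (m + l) - 1) = m + l + σ (3 ^ m) := by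
      intro l hl
      have h1 := sig_pass (x := fun n => 3 ^ e n) hn.1 hn.2 (z := 2 ^ (m + l) - 1) (k := m + l) (i := l) hl
        (by
          rw [hm]
          exact (mersenne_near (n := n)).trans hE)
      rw [h1, hm]
      push_cast
      rfl
    have h3 : σ (3 ^ (m + j)) = σ (3 ^ m) := by
      have h1 := sig_pass (x := fun n => 3 ^ e n) hn.1 hn.2 (z := 3 ^ (m + j)) (k := 0) (i := j) hj
        (by
          rw [hm, Function.iterate_zero, id_eq]
          push_cast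
          rw [pow_add]
          have : (3 : ℝ) ^ e n * 3 ^ j - 3 ^ j * 3 ^ e n = 0 := by ring
          rw [this, abs_zero]
          linarith)
      rw [h1, hm]
      simp
    refine ⟨h3, hM j hj, ?_⟩
    have h0 := hM 0 (by rw [Nat.cast_zero]; exact hn.2)
    rw [add_zero] at h0
    rw [hM j hj, h0]
    push_cast
    ring

end Pool.Agent.Results.MP_a1568a_nt.StoppingTimesOfMersenneNumbers
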